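import Pool.Agent.H872R2.Drastic.Straight

/-! A knot in the three-torus with zero winding vector is null-homotopic. -/

set_option autoImplicit false

namespace Pool.Agent.Y478.DR

open Set Topology unitInterval Pool.Agent.H872R2.Drastic

/-- a 1-periodic continuous map from the line descends to the circle -/
theorem exists_descend {X : Type*} [TopologicalSpace X] (F : ℝ → X) (hF : Continuous F)
    (hp : ∀ s, F (s + 1) = F s) : ∃ G : C(UnitAddCircle, X), ∀ s : ℝ, G (s : UnitAddCircle) = F s := by
  have hper : Function.Periodic F 1 := hp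
  refine ⟨⟨hper.lift, ?_⟩, fun s => hper.lift_coe s⟩
  have hq : IsQuotientMap ((↑) : ℝ → UnitAddCircle) := isOpenQuotientMap_coe.isQuotientMap
  rw [hq.continuous_iff]
  exact hF

theorem nullhomotopic_of_w {K : TameKnot T3} (D : K.Data) (hw : D.w = 0) :
    K.core.Nullhomotopic := by
  obtain ⟨G, hG⟩ := exists_descend (fun s => D.Φ (s, ⟨0, by simp⟩)) (by fun_prop)
    (fun s => by rw [D.hw, hw, map_zero, add_zero])
  have hcore : K.core = (⟨pr, continuous_pr⟩ : C(E3, T3)).comp G := by
    ext1 s
    obtain ⟨r, rfl⟩ := unitAddCircle_surj s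
    show K.tube _ = pr (G r)
    rw [hG, D.hΦ]
  rw [hcore]
  have h1 : G.Nullhomotopic := by
    refine ⟨0, ⟨?_⟩⟩
    refine ⟨⟨fun p => (1 - (p.1 : ℝ)) • G p.2, by fun_prop⟩, fun s => ?_, fun s => ?_⟩
    · simp
    · simp
  exact h1.comp_right _

/-- **Every** homotopy class of knots in the three-torus which is not null-homotopic consists of
knots without drastic surgery. -/
theorem not_drastic_of_not_null (K : TameKnot T3) (hK : ¬ K.core.Nullhomotopic) :
    ¬ K.AdmitsDrasticSurgery := by
  obtain ⟨D⟩ := K.exists_data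
  exact TameKnot.not_drastic D fun hw => hK (nullhomotopic_of_w D hw)

end Pool.Agent.Y478.DR
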