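import Pool.Agent.Y478.DR.Null

/-! The fundamental group of the torus `S¹ × S¹`: every loop is homotopic to a standard curve. -/

set_option autoImplicit false

namespace Pool.Agent.Y478.DR

open Set Topology unitInterval Pool.Agent.H872R2.Drastic

/-- Two loops with lifts that have the same endpoints are homotopic. -/
theorem homotopic_of_lift (γ γ' : Path ((0, 0) : UnitAddCircle × UnitAddCircle) (0, 0))
    (F F' : I → ℝ × ℝ) (hF : Continuous F) (hF' : Continuous F')
    (h : ∀ t, γ t = (((F t).1 : UnitAddCircle), ((F t).2 : UnitAddCircle)))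
    (h' : ∀ t, γ' t = (((F' t).1 : UnitAddCircle), ((F' t).2 : UnitAddCircle)))
    (h0 : F 0 = F' 0) (h1 : F 1 = F' 1) : γ.Homotopic γ' := by
  refine ⟨⟨⟨⟨fun p => ((((F p.2).1 + (p.1 : ℝ) * ((F' p.2).1 - (F p.2).1) : ℝ) : UnitAddCircle),
    (((F p.2).2 + (p.1 : ℝ) * ((F' p.2).2 - (F p.2).2) : ℝ) : UnitAddCircle)), ?_⟩, ?_, ?_⟩, ?_⟩⟩
  · refine Continuous.prodMk ?_ ?_
    · exact (AddCircle.continuous_mk' (1 : ℝ)).comp (by fun_prop)
    · exact (AddCircle.continuous_mk' (1 : ℝ)).comp (by fun_prop)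
  · intro t
    show ((((F t).1 + ((0 : I) : ℝ) * ((F' t).1 - (F t).1) : ℝ) : UnitAddCircle),
      (((F t).2 + ((0 : I) : ℝ) * ((F' t).2 - (F t).2) : ℝ) : UnitAddCircle)) = γ t
    rw [h]
    simp
  · intro t
    show ((((F t).1 + ((1 : I) : ℝ) * ((F' t).1 - (F t).1) : ℝ) : UnitAddCircle),
      (((F t).2 + ((1 : I) : ℝ) * ((F' t).2 - (F t).2) : ℝ) : UnitAddCircle)) = γ' t
    rw [h']
    simp
  · intro t x hx
    show ((((F x).1 + (t : ℝ) * ((F' x).1 - (F x).1) : ℝ) : UnitAddCircle),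
      (((F x).2 + (t : ℝ) * ((F' x).2 - (F x).2) : ℝ) : UnitAddCircle)) = γ x
    have hx' : F' x = F x := by
      rcases hx with rfl | hx
      · exact h0.symm
      · rw [mem_singleton_iff] at hx
        rw [hx]
        exact h1.symm
    rw [h, hx']
    simp

/-- every loop is homotopic to a standard curve -/
theorem exists_curve (γ : Path ((0, 0) : UnitAddCircle × UnitAddCircle) (0, 0)) :
    ∃ p q : ℤ, γ.Homotopic (TameKnot.curve p q) := by
  have hI : ContractibleSpace I := (convex_Icc (0 : ℝ) 1).contractibleSpace ⟨0, by simp⟩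
  have key : ∀ g : C(I, UnitAddCircle), g 0 = 0 → g 1 = 0 → ∃ (F : I → ℝ) (n : ℤ), Continuous F ∧
      (∀ t, (F t : UnitAddCircle) = g t) ∧ F 0 = 0 ∧ F 1 = n := by
    intro g g0 g1
    obtain ⟨F, hF⟩ := exists_lift_contractible unitAddCircle_cov unitAddCircle_surj g
    obtain ⟨a, ha⟩ := coe_eq_zero (r := F 0) (by rw [hF, g0])
    obtain ⟨b, hb⟩ := coe_eq_zero (r := F 1) (by rw [hF, g1])
    refine ⟨fun t => F t - a, b - a, by fun_prop, fun t => ?_, ?_, ?_⟩
    · rw [AddCircle.coe_sub, hF, coe_int, sub_zero]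
    · simp [ha]
    · simp [hb]
  obtain ⟨F1, q, c1, d1, e1, f1⟩ := key (⟨fun t => (γ t).1, by fun_prop⟩)
    (by show (γ 0).1 = 0; rw [γ.source]) (by show (γ 1).1 = 0; rw [γ.target])
  obtain ⟨F2, p, c2, d2, e2, f2⟩ := key (⟨fun t => (γ t).2, by fun_prop⟩)
    (by show (γ 0).2 = 0; rw [γ.source]) (by show (γ 1).2 = 0; rw [γ.target])
  refine ⟨p, q, homotopic_of_lift γ (TameKnot.curve p q) (fun t => (F1 t, F2 t))
    (fun t => ((q : ℝ) * (t : ℝ), (p : ℝ) * (t : ℝ))) (by fun_prop) (by fun_prop) ?_ ?_ ?_ ?_⟩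
  · intro t
    refine Prod.ext ?_ ?_
    · exact (d1 t).symm
    · exact (d2 t).symm
  · intro t
    rfl
  · simp [e1, e2]
  · simp [f1, f2]

theorem curve_trans (p q : ℤ) :
    (TameKnot.curve (p + 1) q).Homotopic ((TameKnot.curve p q).trans (TameKnot.curve 1 0)) := by
  let P1 : Path ((0, 0) : ℝ × ℝ) ((q : ℝ), (p : ℝ)) :=
    { toFun := fun t => ((q : ℝ) * (t : ℝ), (p : ℝ) * (t : ℝ))
      continuous_toFun := by fun_prop
      source' := by simp
      target' := by simp }
  let P2 : Path (((q : ℝ), (p : ℝ)) : ℝ × ℝ) ((q : ℝ), (p : ℝ) + 1) :=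
    { toFun := fun t => ((q : ℝ), (p : ℝ) + (t : ℝ))
      continuous_toFun := by fun_prop
      source' := by simp
      target' := by simp }
  refine homotopic_of_lift _ _ (fun t => ((q : ℝ) * (t : ℝ), ((p : ℝ) + 1) * (t : ℝ)))
    (P1.trans P2) (by fun_prop) (P1.trans P2).continuous ?_ ?_ ?_ ?_
  · intro t
    show ((((q : ℝ) * (t : ℝ) : ℝ) : UnitAddCircle),
        ((((p + 1 : ℤ) : ℝ) * (t : ℝ) : ℝ) : UnitAddCircle)) =
      ((((q : ℝ) * (t : ℝ) : ℝ) : UnitAddCircle), ((((p : ℝ) + 1) * (t : ℝ) : ℝ) : UnitAddCircle))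
    push_cast
    rfl
  · intro t
    rw [Path.trans_apply, Path.trans_apply]
    split_ifs with ht
    · rfl
    · refine Prod.ext ?_ ?_
      · show ((((0 : ℤ) : ℝ) * (2 * (t : ℝ) - 1) : ℝ) : UnitAddCircle) = ((q : ℝ) : UnitAddCircle)
        rw [coe_int]
        simp
      · show ((((1 : ℤ) : ℝ) * (2 * (t : ℝ) - 1) : ℝ) : UnitAddCircle) =
          (((p : ℝ) + (2 * (t : ℝ) - 1) : ℝ) : UnitAddCircle)
        rw [AddCircle.coe_add, coe_int, zero_add]
        simp
  · rw [(P1.trans P2).source]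
    simp
  · rw [(P1.trans P2).target]
    simp

variable {M : Type*} [TopologicalSpace M] (K : TameKnot M)

theorem slope_succ (p q : ℤ) : K.slope (p + 1) q = K.slope 1 0 * K.slope p q := by
  have h : Path.Homotopic.Quotient.mk (TameKnot.curve (p + 1) q) =
      (Path.Homotopic.Quotient.mk (TameKnot.curve p q)).trans
        (Path.Homotopic.Quotient.mk (TameKnot.curve 1 0)) := by
    rw [← Path.Homotopic.Quotient.mk_trans]
    exact Quotient.sound (curve_trans p q)
  rw [TameKnot.slope, h]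
  exact map_mul (FundamentalGroup.map K.boundary (0, 0)) _ _

/-- If the longitude is trivial in the exterior, then the meridional surgery is drastic. -/
theorem drastic_of_longitude (h : ∀ q : ℤ, K.slope 0 q = 1) : K.AdmitsDrasticSurgery := by
  refine ⟨1, 0, isCoprime_one_left, ?_⟩
  have hN : ∀ p q : ℤ, K.slope p q ∈ Subgroup.normalClosure {K.slope 1 0} := by
    intro p q
    have h1 : K.slope 1 0 ∈ Subgroup.normalClosure {K.slope 1 0} :=
      Subgroup.subset_normalClosure rfl
    induction p using Int.induction_on with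
    | zero => rw [h]; exact Subgroup.one_mem _
    | succ n ih =>
      rw [slope_succ]
      exact Subgroup.mul_mem _ h1 ih
    | pred n ih =>
      have h2 := slope_succ K (-(n : ℤ) - 1) q
      rw [sub_add_cancel] at h2
      have h3 : K.slope (-(n : ℤ) - 1) q = (K.slope 1 0)⁻¹ * K.slope (-(n : ℤ)) q := by
        rw [h2, inv_mul_cancel_left]
      rw [h3]
      exact Subgroup.mul_mem _ (Subgroup.inv_mem _ h1) ih
  have hle : K.peripheral ≤ Subgroup.normalClosure {K.slope 1 0} := by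
    rintro _ ⟨g, rfl⟩
    induction g using Quotient.inductionOn with
    | _ γ =>
      obtain ⟨p, q, hpq⟩ := exists_curve γ
      have h1 : (Quotient.mk _ γ : Path.Homotopic.Quotient _ _) =
          Path.Homotopic.Quotient.mk (TameKnot.curve p q) := Quotient.sound hpq
      have h2 : (FundamentalGroup.map K.boundary (0, 0)) (Quotient.mk _ γ) = K.slope p q := by
        rw [TameKnot.slope, ← h1]
      rw [h2]
      exact hN p q
  rw [Subgroup.subgroupOf_eq_top.2 hle]
  infer_instance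

end Pool.Agent.Y478.DR
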