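import Pool.Agent.Y478.DR.Pi

/-! A small unknot in the three-torus. -/

set_option autoImplicit false

namespace Pool.Agent.Y478.DR

open Set Topology unitInterval Pool.Agent.H872R2.Drastic

theorem pr_inj_small {x y : E3} (hx : ∀ i, |x i| < 1 / 2) (hy : ∀ i, |y i| < 1 / 2)
    (h : pr x = pr y) : x = y := by
  obtain ⟨v, hv⟩ := exists_of_pr_eq h
  have h0 : v = 0 := by
    ext i
    have h1 := congrFun hv i
    simp only [Pi.add_apply, iv_apply] at h1
    have h2 := abs_lt.1 (hx i)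
    have h3 := abs_lt.1 (hy i)
    have h4 : |(v i : ℝ)| < 1 := by
      rw [abs_lt]
      constructor <;> linarith
    have h5 : |v i| < 1 := by exact_mod_cast h4
    exact Int.abs_lt_one_iff.1 h5
  rw [hv, h0, map_zero, add_zero]

/-- The solid torus around the round circle of radius `1/4`. -/
noncomputable def U (p : UnitAddCircle × Disc) : E3 :=
  ![(2 - (p.2 : ℂ).re) * (AddCircle.toCircle p.1 : ℂ).re / 8,
    (2 - (p.2 : ℂ).re) * (AddCircle.toCircle p.1 : ℂ).im / 8, (p.2 : ℂ).im / 8]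

theorem continuous_U : Continuous U := by
  have hc : Continuous fun p : UnitAddCircle × Disc => (AddCircle.toCircle p.1 : ℂ) :=
    continuous_subtype_val.comp (AddCircle.continuous_toCircle.comp continuous_fst)
  have hd : Continuous fun p : UnitAddCircle × Disc => (p.2 : ℂ) :=
    continuous_subtype_val.comp continuous_snd
  have hcr := Complex.continuous_re.comp hc
  have hci := Complex.continuous_im.comp hc
  have hdr := Complex.continuous_re.comp hd
  have hdi := Complex.continuous_im.comp hd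
  refine continuous_pi fun i => ?_
  fin_cases i
  · exact ((continuous_const.sub hdr).mul hcr).div_const 8
  · exact ((continuous_const.sub hdr).mul hci).div_const 8
  · exact hdi.div_const 8

theorem circle_sq (s : UnitAddCircle) :
    (AddCircle.toCircle s : ℂ).re ^ 2 + (AddCircle.toCircle s : ℂ).im ^ 2 = 1 := by
  have h1 : ‖(AddCircle.toCircle s : ℂ)‖ = 1 := Circle.norm_coe _
  have h2 : Complex.normSq (AddCircle.toCircle s : ℂ) = 1 := by
    rw [Complex.normSq_eq_norm_sq, h1, one_pow]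
  rw [Complex.normSq_apply] at h2
  nlinarith

theorem disc_sq (d : Disc) : (d : ℂ).re ^ 2 + (d : ℂ).im ^ 2 ≤ 1 := by
  have h1 : ‖(d : ℂ)‖ ≤ 1 := mem_closedBall_zero_iff.1 d.2
  have h2 : Complex.normSq (d : ℂ) ≤ 1 := by
    rw [Complex.normSq_eq_norm_sq]
    exact pow_le_one₀ (norm_nonneg _) h1
  rw [Complex.normSq_apply] at h2
  nlinarith

theorem disc_sq_lt (d : Disc) (hd : ‖(d : ℂ)‖ < 1) : (d : ℂ).re ^ 2 + (d : ℂ).im ^ 2 < 1 := by
  have h2 : Complex.normSq (d : ℂ) < 1 := by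
    rw [Complex.normSq_eq_norm_sq]
    exact pow_lt_one₀ (norm_nonneg _) hd (by norm_num)
  rw [Complex.normSq_apply] at h2
  nlinarith

theorem U_small (p : UnitAddCircle × Disc) (i : Fin 3) : |U p i| < 1 / 2 := by
  have h1 := circle_sq p.1
  have h2 := disc_sq p.2
  have hr : |(AddCircle.toCircle p.1 : ℂ).re| ≤ 1 := abs_le_one_iff_mul_self_le_one.2 (by nlinarith)
  have hi : |(AddCircle.toCircle p.1 : ℂ).im| ≤ 1 := abs_le_one_iff_mul_self_le_one.2 (by nlinarith)
  have hdr : |(p.2 : ℂ).re| ≤ 1 := abs_le_one_iff_mul_self_le_one.2 (by nlinarith)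
  have hdi : |(p.2 : ℂ).im| ≤ 1 := abs_le_one_iff_mul_self_le_one.2 (by nlinarith)
  have ha : |2 - (p.2 : ℂ).re| ≤ 3 := by
    rw [abs_le] at hdr ⊢
    constructor <;> linarith
  fin_cases i
  · show |(2 - (p.2 : ℂ).re) * (AddCircle.toCircle p.1 : ℂ).re / 8| < 1 / 2
    rw [abs_div, abs_mul, abs_of_pos (by norm_num : (0 : ℝ) < 8)]
    have := mul_le_mul ha hr (abs_nonneg _) (by norm_num)
    linarith
  · show |(2 - (p.2 : ℂ).re) * (AddCircle.toCircle p.1 : ℂ).im / 8| < 1 / 2
    rw [abs_div, abs_mul, abs_of_pos (by norm_num : (0 : ℝ) < 8)]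
    have := mul_le_mul ha hi (abs_nonneg _) (by norm_num)
    linarith
  · show |(p.2 : ℂ).im / 8| < 1 / 2
    rw [abs_div, abs_of_pos (by norm_num : (0 : ℝ) < 8)]
    linarith

theorem polar {a a' r i r' i' : ℝ} (ha : 0 ≤ a) (ha' : 0 < a') (h : r ^ 2 + i ^ 2 = 1)
    (h' : r' ^ 2 + i' ^ 2 = 1) (h1 : a * r = a' * r') (h2 : a * i = a' * i') :
    a = a' ∧ r = r' ∧ i = i' := by
  have h3 : a ^ 2 = a' ^ 2 := by
    have e1 : a ^ 2 = (a * r) ^ 2 + (a * i) ^ 2 := by
      rw [mul_pow, mul_pow, ← mul_add, h, mul_one]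
    have e2 : a' ^ 2 = (a' * r') ^ 2 + (a' * i') ^ 2 := by
      rw [mul_pow, mul_pow, ← mul_add, h', mul_one]
    rw [e1, e2, h1, h2]
  have h4 : a = a' := (pow_left_inj₀ ha ha'.le (by norm_num)).1 h3
  subst h4
  exact ⟨rfl, mul_left_cancel₀ ha'.ne' h1, mul_left_cancel₀ ha'.ne' h2⟩

theorem U_injective : Function.Injective U := by
  rintro ⟨s, d⟩ ⟨s', d'⟩ h
  have h0 : (2 - (d : ℂ).re) * (AddCircle.toCircle s : ℂ).re / 8 =
    (2 - (d' : ℂ).re) * (AddCircle.toCircle s' : ℂ).re / 8 := congrFun h 0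
  have h1 : (2 - (d : ℂ).re) * (AddCircle.toCircle s : ℂ).im / 8 =
    (2 - (d' : ℂ).re) * (AddCircle.toCircle s' : ℂ).im / 8 := congrFun h 1
  have h2 : (d : ℂ).im / 8 = (d' : ℂ).im / 8 := congrFun h 2
  have hd := disc_sq d
  have hd' := disc_sq d'
  obtain ⟨e1, e2, e3⟩ := polar (a := 2 - (d : ℂ).re) (a' := 2 - (d' : ℂ).re) (by nlinarith)
    (by nlinarith) (circle_sq s) (circle_sq s') (by linarith) (by linarith)
  have hs : s = s' := by
    apply AddCircle.injective_toCircle one_ne_zero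
    exact Subtype.ext (Complex.ext e2 e3)
  refine Prod.ext hs (Subtype.ext (Complex.ext ?_ ?_))
  · show (d : ℂ).re = (d' : ℂ).re
    linarith
  · show (d : ℂ).im = (d' : ℂ).im
    linarith

theorem tube_injective : Function.Injective fun p => pr (U p) := by
  intro p p' h
  exact U_injective (pr_inj_small (U_small p) (U_small p') h)

theorem isOpen_tube : IsOpen ((fun p => pr (U p)) '' {p | ‖(p.2 : ℂ)‖ < 1}) := by
  have hopen : IsOpenMap pr := isOpenQuotientMap_pr.isOpenMap
  have h1 : IsOpen {x : E3 | (8 * Real.sqrt (x 0 ^ 2 + x 1 ^ 2) - 2) ^ 2 + (8 * x 2) ^ 2 < 1} :=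
    isOpen_lt (by fun_prop) continuous_const
  have h2 : (fun p => pr (U p)) '' {p | ‖(p.2 : ℂ)‖ < 1} =
      pr '' {x : E3 | (8 * Real.sqrt (x 0 ^ 2 + x 1 ^ 2) - 2) ^ 2 + (8 * x 2) ^ 2 < 1} := by
    ext y
    constructor
    · rintro ⟨⟨s, d⟩, hd, rfl⟩
      refine ⟨U (s, d), ?_, rfl⟩
      have hd2 := disc_sq_lt d hd
      have hs := circle_sq s
      have e1 : U (s, d) 0 ^ 2 + U (s, d) 1 ^ 2 = ((2 - (d : ℂ).re) / 8) ^ 2 := by
        show ((2 - (d : ℂ).re) * (AddCircle.toCircle s : ℂ).re / 8) ^ 2 +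
          ((2 - (d : ℂ).re) * (AddCircle.toCircle s : ℂ).im / 8) ^ 2 = _
        have : ((2 - (d : ℂ).re) * (AddCircle.toCircle s : ℂ).re / 8) ^ 2 +
          ((2 - (d : ℂ).re) * (AddCircle.toCircle s : ℂ).im / 8) ^ 2 =
          ((2 - (d : ℂ).re) / 8) ^ 2 * ((AddCircle.toCircle s : ℂ).re ^ 2 +
            (AddCircle.toCircle s : ℂ).im ^ 2) := by ring
        rw [this, hs, mul_one]
      have e2 : U (s, d) 2 = (d : ℂ).im / 8 := rfl
      rw [mem_ofPred_eq, e1, e2, Real.sqrt_sq (by nlinarith)]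
      nlinarith
    · rintro ⟨x, hx, rfl⟩
      rw [mem_ofPred_eq] at hx
      set ρ := Real.sqrt (x 0 ^ 2 + x 1 ^ 2) with hρ
      have hρ2 : ρ ^ 2 = x 0 ^ 2 + x 1 ^ 2 := Real.sq_sqrt (by positivity)
      have hρ0 : 0 < ρ := by
        have h3 : 0 ≤ ρ := Real.sqrt_nonneg _
        rcases h3.lt_or_eq with h4 | h4
        · exact h4
        · exfalso
          rw [← h4] at hx
          nlinarith [sq_nonneg (8 * x 2)]
      have hc : ‖(⟨x 0 / ρ, x 1 / ρ⟩ : ℂ)‖ = 1 := by
        have h3 : ‖(⟨x 0 / ρ, x 1 / ρ⟩ : ℂ)‖ ^ 2 = 1 := by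
          rw [← Complex.normSq_eq_norm_sq, Complex.normSq_apply]
          show x 0 / ρ * (x 0 / ρ) + x 1 / ρ * (x 1 / ρ) = 1
          field_simp
          linarith
        exact (pow_eq_one_iff_of_nonneg (norm_nonneg _) (by norm_num)).1 h3
      obtain ⟨s, hs⟩ := (AddCircle.homeomorphCircle (one_ne_zero (α := ℝ))).surjective
        ⟨(⟨x 0 / ρ, x 1 / ρ⟩ : ℂ), mem_sphere_zero_iff_norm.2 hc⟩
      rw [AddCircle.homeomorphCircle_apply] at hs
      have hs' : (AddCircle.toCircle s : ℂ) = ⟨x 0 / ρ, x 1 / ρ⟩ := congrArg Subtype.val hs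
      have hd : ‖(⟨2 - 8 * ρ, 8 * x 2⟩ : ℂ)‖ < 1 := by
        have : ‖(⟨2 - 8 * ρ, 8 * x 2⟩ : ℂ)‖ ^ 2 < 1 := by
          rw [← Complex.normSq_eq_norm_sq, Complex.normSq_apply]
          show (2 - 8 * ρ) * (2 - 8 * ρ) + 8 * x 2 * (8 * x 2) < 1
          nlinarith
        rwa [sq_lt_one_iff_abs_lt_one, abs_norm] at this
      refine ⟨(s, ⟨⟨2 - 8 * ρ, 8 * x 2⟩, mem_closedBall_zero_iff.2 hd.le⟩), hd, ?_⟩
      show pr (U _) = pr x
      congr 1
      ext i
      fin_cases i
      · show (2 - (2 - 8 * ρ)) * (AddCircle.toCircle s : ℂ).re / 8 = x 0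
        rw [hs']
        show (2 - (2 - 8 * ρ)) * (x 0 / ρ) / 8 = x 0
        field_simp
        ring
      · show (2 - (2 - 8 * ρ)) * (AddCircle.toCircle s : ℂ).im / 8 = x 1
        rw [hs']
        show (2 - (2 - 8 * ρ)) * (x 1 / ρ) / 8 = x 1
        field_simp
        ring
      · show (8 * x 2) / 8 = x 2
        ring
  rw [h2]
  exact hopen _ h1

/-- The small unknot. -/
noncomputable def unknot : TameKnot T3 where
  tube p := pr (U p)
  isEmbedding := ((continuous_pr.comp continuous_U).isClosedEmbedding tube_injective).isEmbedding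
  isOpen_image := isOpen_tube

/-- the lift of the core -/
noncomputable def c0 : C(UnitAddCircle, E3) :=
  ⟨fun s => U (s, ⟨0, by simp⟩), continuous_U.comp (continuous_id.prodMk continuous_const)⟩

theorem unknot_null : unknot.core.Nullhomotopic := by
  have hcore : unknot.core = (⟨pr, continuous_pr⟩ : C(E3, T3)).comp c0 := rfl
  rw [hcore]
  refine ContinuousMap.Nullhomotopic.comp_right ?_ _
  refine ⟨0, ⟨?_⟩⟩
  refine ⟨⟨fun p => (1 - (p.1 : ℝ)) • c0 p.2, by fun_prop⟩, fun s => ?_, fun s => ?_⟩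
  · simp
  · simp

/-- The disc bounded by the longitude. -/
theorem disc_mem (w : Disc) : pr ![(w : ℂ).re / 8, (w : ℂ).im / 8, 0] ∈ unknot.exterior := by
  rintro ⟨⟨s, d⟩, hd, h⟩
  have hw := disc_sq w
  have hd2 := disc_sq_lt d hd
  have hs := circle_sq s
  have h1 : U (s, d) = ![(w : ℂ).re / 8, (w : ℂ).im / 8, 0] := by
    refine pr_inj_small (U_small _) ?_ h
    have hr : |(w : ℂ).re| ≤ 1 := abs_le_one_iff_mul_self_le_one.2 (by nlinarith)
    have hi : |(w : ℂ).im| ≤ 1 := abs_le_one_iff_mul_self_le_one.2 (by nlinarith)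
    intro i
    fin_cases i
    · show |(w : ℂ).re / 8| < 1 / 2
      rw [abs_div, abs_of_pos (by norm_num : (0 : ℝ) < 8)]
      linarith
    · show |(w : ℂ).im / 8| < 1 / 2
      rw [abs_div, abs_of_pos (by norm_num : (0 : ℝ) < 8)]
      linarith
    · show |(0 : ℝ)| < 1 / 2
      norm_num
  have h2 : (2 - (d : ℂ).re) * (AddCircle.toCircle s : ℂ).re / 8 = (w : ℂ).re / 8 := congrFun h1 0
  have h3 : (2 - (d : ℂ).re) * (AddCircle.toCircle s : ℂ).im / 8 = (w : ℂ).im / 8 := congrFun h1 1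
  have h4 : (2 - (d : ℂ).re) ^ 2 = (w : ℂ).re ^ 2 + (w : ℂ).im ^ 2 := by
    have e1 : (w : ℂ).re = (2 - (d : ℂ).re) * (AddCircle.toCircle s : ℂ).re := by linarith
    have e2 : (w : ℂ).im = (2 - (d : ℂ).re) * (AddCircle.toCircle s : ℂ).im := by linarith
    rw [e1, e2, mul_pow, mul_pow, ← mul_add, hs, mul_one]
  nlinarith

/-- the disc as a map to the exterior -/
noncomputable def Dm : C(Disc, unknot.exterior) where
  toFun w := ⟨pr ![(w : ℂ).re / 8, (w : ℂ).im / 8, 0], disc_mem w⟩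
  continuous_toFun := by
    refine Continuous.subtype_mk (continuous_pr.comp ?_) _
    have hd : Continuous fun w : Disc => (w : ℂ) := continuous_subtype_val
    refine continuous_pi fun i => ?_
    fin_cases i
    · exact (Complex.continuous_re.comp hd).div_const 8
    · exact (Complex.continuous_im.comp hd).div_const 8
    · exact continuous_const

theorem circ_zero : ((circ 0 : Disc) : ℂ) = 1 := by
  simp [circ]

theorem boundary_eq (s : UnitAddCircle) : unknot.boundary (s, 0) = Dm (circ s) := by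
  apply Subtype.ext
  show pr (U (s, circ 0)) = pr ![((circ s : Disc) : ℂ).re / 8, ((circ s : Disc) : ℂ).im / 8, 0]
  congr 1
  ext i
  fin_cases i
  · show (2 - ((circ 0 : Disc) : ℂ).re) * (AddCircle.toCircle s : ℂ).re / 8 =
      (AddCircle.toCircle s : ℂ).re / 8
    rw [circ_zero, Complex.one_re]
    ring
  · show (2 - ((circ 0 : Disc) : ℂ).re) * (AddCircle.toCircle s : ℂ).im / 8 =
      (AddCircle.toCircle s : ℂ).im / 8
    rw [circ_zero, Complex.one_re]
    ring
  · show ((circ 0 : Disc) : ℂ).im / 8 = 0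
    rw [circ_zero, Complex.one_im, zero_div]

/-- the contraction of the disc to the point `circ 0` -/
noncomputable def ctr (τ : I) (w : Disc) : Disc :=
  ⟨(1 - (τ : ℝ)) • (w : ℂ) + (τ : ℝ) • ((circ 0 : Disc) : ℂ), by
    have h := convex_closedBall (0 : ℂ) 1
    exact h w.2 (circ 0).2 (by linarith [τ.2.2]) τ.2.1 (by ring)⟩

theorem continuous_ctr : Continuous fun p : I × Disc => ctr p.1 p.2 := by
  unfold ctr
  fun_prop

theorem longitude_trivial (q : ℤ) : unknot.slope 0 q = 1 := by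
  have h : ((TameKnot.curve 0 q).map unknot.boundary.continuous).Homotopic
      (Path.refl (unknot.boundary (0, 0))) := by
    have hc : ∀ t : I, unknot.boundary (TameKnot.curve 0 q t) =
        Dm (circ (((q : ℝ) * (t : ℝ) : ℝ) : UnitAddCircle)) := by
      intro t
      rw [← boundary_eq]
      congr 1
      refine Prod.ext rfl ?_
      show ((((0 : ℤ) : ℝ) * (t : ℝ) : ℝ) : UnitAddCircle) = 0
      simp
    have hz : ∀ t : I, (t = 0 ∨ t = 1) → (((q : ℝ) * (t : ℝ) : ℝ) : UnitAddCircle) = 0 := by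
      rintro t (rfl | rfl)
      · simp
      · simp
    refine ⟨⟨⟨⟨fun p => Dm (ctr p.1 (circ (((q : ℝ) * (p.2 : ℝ) : ℝ) : UnitAddCircle))), ?_⟩,
      ?_, ?_⟩, ?_⟩⟩
    · refine Dm.continuous.comp (continuous_ctr.comp (continuous_fst.prodMk ?_))
      refine TameKnot.continuous_circ.comp ((AddCircle.continuous_mk' (1 : ℝ)).comp ?_)
      fun_prop
    · intro t
      show Dm (ctr 0 _) = unknot.boundary (TameKnot.curve 0 q t)
      rw [hc]
      congr 1
      apply Subtype.ext
      simp [ctr]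
    · intro t
      show Dm (ctr 1 _) = unknot.boundary (0, 0)
      rw [boundary_eq]
      congr 1
      apply Subtype.ext
      simp [ctr]
    · intro τ t ht
      show Dm (ctr τ _) = unknot.boundary (TameKnot.curve 0 q t)
      have ht' : t = 0 ∨ t = 1 := by
        rcases ht with h | h
        · exact Or.inl h
        · exact Or.inr h
      rw [hc, hz t ht']
      congr 1
      apply Subtype.ext
      show (1 - (τ : ℝ)) • ((circ 0 : Disc) : ℂ) + (τ : ℝ) • ((circ 0 : Disc) : ℂ) =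
        ((circ 0 : Disc) : ℂ)
      rw [← add_smul, sub_add_cancel, one_smul]
  exact Quotient.sound h

theorem unknot_drastic : unknot.AdmitsDrasticSurgery :=
  drastic_of_longitude unknot longitude_trivial

/-- null-homotopic maps to the three-torus are homotopic -/
theorem homotopic_of_null {f g : C(UnitAddCircle, T3)} (hf : f.Nullhomotopic)
    (hg : g.Nullhomotopic) : f.Homotopic g := by
  obtain ⟨a, ha⟩ := hf
  obtain ⟨b, hb⟩ := hg
  have hp : PathConnectedSpace T3 := pr_surjective.pathConnectedSpace continuous_pr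
  refine ha.trans (ContinuousMap.Homotopic.trans ?_ hb.symm)
  exact ContinuousMap.homotopic_const_iff.2 (hp.joined a b)

end Pool.Agent.Y478.DR
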